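import Pool.Agent.helper99.PLR.Spec

/-!
# Row GAP of project plr
-/

set_option autoImplicit false
set_option linter.unusedVariables false

open scoped Classical

namespace Pool.Agent.PLR

open Finset
open Pool.Agent.helper65.HC (V IsEig IsTop lam)
open Pool.Agent.helper9.HQ (Fam Dn E N Le Eig lk)
open Pool.Agent.helper9.HX (Ef)
open Pool.Agent.helper9.HLR (cel Lc)

noncomputable section

/-- the level `j` -/
def GAP_L (j d : ℕ) : Fam d := univ.filter fun x => x.card = j

theorem GAP_mem (j d : ℕ) (x : Finset (Fin d)) : x ∈ GAP_L j d ↔ x.card = j := by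
  unfold GAP_L
  rw [mem_filter]
  exact ⟨fun h => h.2, fun h => ⟨mem_univ _, h⟩⟩

theorem GAP_sum_ball (k d : ℕ) (g : Finset (Fin d) → ℝ) :
    ∑ x ∈ ball k d, g x = ∑ j ∈ range (k + 1), ∑ x ∈ GAP_L j d, g x := by
  unfold ball
  rw [← Finset.sum_fiberwise_of_maps_to (s := univ.filter fun x : Finset (Fin d) => x.card ≤ k)
    (t := range (k + 1)) (g := fun x => x.card)]
  · refine sum_congr rfl fun j hj => ?_
    refine sum_congr ?_ fun _ _ => rfl
    ext x
    rw [mem_filter, mem_filter, GAP_mem]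
    rw [mem_range] at hj
    constructor
    · exact fun h => h.2
    · exact fun h => ⟨⟨mem_univ _, by omega⟩, h⟩
  · intro x hx
    rw [mem_filter] at hx
    rw [mem_range]
    omega

theorem GAP_dc (j d : ℕ) (F : Finset (Fin d) → ℝ) (hF : ∀ x, 0 ≤ F x) :
    ∑ x ∈ GAP_L (j + 1) d, ∑ i ∈ x, F (x.erase i) ≤ d * ∑ y ∈ GAP_L j d, F y := by
  have h1 : ∑ x ∈ GAP_L (j + 1) d, ∑ i ∈ x, F (x.erase i) =
      ∑ i ∈ (univ : Finset (Fin d)), ∑ x ∈ (GAP_L (j + 1) d).filter (fun x => i ∈ x),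
        F (x.erase i) := by
    apply Finset.sum_comm'
    intro x i
    rw [mem_filter]
    exact ⟨fun h => ⟨⟨h.1, h.2⟩, mem_univ _⟩, fun h => h.1⟩
  rw [h1]
  have h2 : ∀ i ∈ (univ : Finset (Fin d)),
      ∑ x ∈ (GAP_L (j + 1) d).filter (fun x => i ∈ x), F (x.erase i) ≤
        ∑ y ∈ GAP_L j d, F y := by
    intro i _
    have hinj : Set.InjOn (fun x : Finset (Fin d) => x.erase i)
        ((GAP_L (j + 1) d).filter (fun x => i ∈ x)) := by
      intro x hx y hy hxy
      rw [mem_coe, mem_filter] at hx hy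
      have := congrArg (fun z => insert i z) hxy
      simpa only [insert_erase hx.2, insert_erase hy.2] using this
    rw [← sum_image (f := F) hinj]
    refine sum_le_sum_of_subset_of_nonneg ?_ fun _ _ _ => hF _
    intro y hy
    rw [mem_image] at hy
    obtain ⟨x, hx, rfl⟩ := hy
    rw [mem_filter, GAP_mem] at hx
    rw [GAP_mem, card_erase_of_mem hx.2, hx.1]
    rfl
  calc _ ≤ ∑ _i ∈ (univ : Finset (Fin d)), ∑ y ∈ GAP_L j d, F y := sum_le_sum h2
    _ = d * ∑ y ∈ GAP_L j d, F y := by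
      rw [sum_const, nsmul_eq_mul, card_univ, Fintype.card_fin]

theorem GAP (hWTS : WTS_stmt) (hGS : GS_stmt) : GAP_stmt := by
  intro k
  obtain ⟨c, C, hc, hC, hW⟩ := hWTS k
  set M : ℝ := 2 * C + 2 * C ^ 2 + 1 with hM
  have hM1 : 1 ≤ M := by rw [hM]; nlinarith [sq_nonneg C]
  have hM0 : 0 < M := by linarith
  refine ⟨(k + 1) * M ^ k, by positivity, fun d hd f => ?_⟩
  obtain ⟨w0, wpos, wz, wrec, wrat, -, -, -⟩ := hW d hd
  have hg := hGS k d hd f
  have hd0 : (0 : ℝ) < d := by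
    have : 0 < d := by omega
    exact_mod_cast this
  have hs : 0 < √(d : ℝ) := Real.sqrt_pos.mpr hd0
  have hss : √(d : ℝ) * √(d : ℝ) = d := Real.mul_self_sqrt hd0.le
  set D : ℝ := hz (k + 1) * √(d : ℝ) * N (ball k d) f - E (ball k d) f with hD
  have hterm : ∀ x ∈ ball k d, 0 ≤ ∑ i ∈ x, wt k d x.card * wt k d (x.card - 1) *
      (f x / wt k d x.card - f (x.erase i) / wt k d (x.card - 1)) ^ 2 := by
    intro x hx
    unfold ball at hx
    rw [mem_filter] at hx
    refine sum_nonneg fun i _ => ?_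
    exact mul_nonneg (mul_nonneg (wpos _ hx.2).le (wpos _ (by omega)).le) (sq_nonneg _)
  have hD0 : 0 ≤ D := le_trans (sum_nonneg hterm) hg
  have hrec : ∀ j : ℕ, j + 1 ≤ k →
      ∑ x ∈ GAP_L (j + 1) d, (f x - f ∅ * wt k d (j + 1)) ^ 2 ≤
        2 * C / √(d : ℝ) * D +
          2 * C ^ 2 * ∑ x ∈ GAP_L j d, (f x - f ∅ * wt k d j) ^ 2 := by
    intro j hj
    have p1 := wpos (j + 1) hj
    have p0 := wpos j (by omega)
    have hr := wrat (j + 1) (by omega) hj
    rw [Nat.add_sub_cancel] at hr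
    have hlev : ∑ x ∈ GAP_L (j + 1) d, ∑ i ∈ x, wt k d (j + 1) * wt k d j *
        (f x / wt k d (j + 1) - f (x.erase i) / wt k d j) ^ 2 ≤ D := by
      refine le_trans ?_ hg
      have e1 : ∑ x ∈ GAP_L (j + 1) d, ∑ i ∈ x, wt k d (j + 1) * wt k d j *
          (f x / wt k d (j + 1) - f (x.erase i) / wt k d j) ^ 2 =
          ∑ x ∈ GAP_L (j + 1) d, ∑ i ∈ x, wt k d x.card * wt k d (x.card - 1) *
          (f x / wt k d x.card - f (x.erase i) / wt k d (x.card - 1)) ^ 2 := by
        refine sum_congr rfl fun x hx => ?_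
        rw [GAP_mem] at hx
        rw [hx, Nat.add_sub_cancel]
      rw [e1]
      refine sum_le_sum_of_subset_of_nonneg ?_ fun x hx _ => hterm x hx
      intro x hx
      rw [GAP_mem] at hx
      unfold ball
      rw [mem_filter]
      exact ⟨mem_univ _, by omega⟩
    have hpt : ∀ x ∈ GAP_L (j + 1) d, (f x - f ∅ * wt k d (j + 1)) ^ 2 ≤
        ∑ i ∈ x, (2 * (wt k d (j + 1) / wt k d j) * (wt k d (j + 1) * wt k d j *
          (f x / wt k d (j + 1) - f (x.erase i) / wt k d j) ^ 2) +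
          2 * (wt k d (j + 1) / wt k d j) ^ 2 * (f (x.erase i) - f ∅ * wt k d j) ^ 2) := by
      intro x hx
      rw [GAP_mem] at hx
      have h1 : ∀ i ∈ x, (f x - f ∅ * wt k d (j + 1)) ^ 2 ≤
          (2 * (wt k d (j + 1) / wt k d j) * (wt k d (j + 1) * wt k d j *
          (f x / wt k d (j + 1) - f (x.erase i) / wt k d j) ^ 2) +
          2 * (wt k d (j + 1) / wt k d j) ^ 2 * (f (x.erase i) - f ∅ * wt k d j) ^ 2) := by
        intro i _
        have e2 : f x - f ∅ * wt k d (j + 1) =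
            wt k d (j + 1) * (f x / wt k d (j + 1) - f (x.erase i) / wt k d j) +
            wt k d (j + 1) / wt k d j * (f (x.erase i) - f ∅ * wt k d j) := by
          field_simp
          ring
        have e3 : 2 * (wt k d (j + 1) / wt k d j) * (wt k d (j + 1) * wt k d j *
            (f x / wt k d (j + 1) - f (x.erase i) / wt k d j) ^ 2) =
            2 * (wt k d (j + 1) * (f x / wt k d (j + 1) - f (x.erase i) / wt k d j)) ^ 2 := by
          field_simp
        have e4 : 2 * (wt k d (j + 1) / wt k d j) ^ 2 * (f (x.erase i) - f ∅ * wt k d j) ^ 2 =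
            2 * (wt k d (j + 1) / wt k d j * (f (x.erase i) - f ∅ * wt k d j)) ^ 2 := by ring
        rw [e3, e4, e2]
        nlinarith [sq_nonneg (wt k d (j + 1) * (f x / wt k d (j + 1) - f (x.erase i) / wt k d j) -
            wt k d (j + 1) / wt k d j * (f (x.erase i) - f ∅ * wt k d j))]
      have hne : x.Nonempty := by
        rw [← card_pos, hx]
        omega
      obtain ⟨i, hi⟩ := hne
      refine (h1 i hi).trans ?_
      refine single_le_sum (f := fun i => (2 * (wt k d (j + 1) / wt k d j) *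
          (wt k d (j + 1) * wt k d j *
          (f x / wt k d (j + 1) - f (x.erase i) / wt k d j) ^ 2) +
          2 * (wt k d (j + 1) / wt k d j) ^ 2 * (f (x.erase i) - f ∅ * wt k d j) ^ 2))
          (fun i _ => ?_) hi
      positivity
    have hq : wt k d (j + 1) / wt k d j ≤ C / √(d : ℝ) := by
      rw [div_le_iff₀ p0]
      exact hr
    have hq0 : 0 ≤ wt k d (j + 1) / wt k d j := by positivity
    have hA := GAP_dc j d (fun y => (f y - f ∅ * wt k d j) ^ 2) (fun _ => sq_nonneg _)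
    have hA0 : 0 ≤ ∑ x ∈ GAP_L j d, (f x - f ∅ * wt k d j) ^ 2 :=
      sum_nonneg fun _ _ => sq_nonneg _
    calc ∑ x ∈ GAP_L (j + 1) d, (f x - f ∅ * wt k d (j + 1)) ^ 2
        ≤ ∑ x ∈ GAP_L (j + 1) d, ∑ i ∈ x, (2 * (wt k d (j + 1) / wt k d j) *
          (wt k d (j + 1) * wt k d j *
          (f x / wt k d (j + 1) - f (x.erase i) / wt k d j) ^ 2) +
          2 * (wt k d (j + 1) / wt k d j) ^ 2 * (f (x.erase i) - f ∅ * wt k d j) ^ 2) :=
          sum_le_sum hpt
      _ = 2 * (wt k d (j + 1) / wt k d j) * (∑ x ∈ GAP_L (j + 1) d, ∑ i ∈ x,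
          wt k d (j + 1) * wt k d j *
          (f x / wt k d (j + 1) - f (x.erase i) / wt k d j) ^ 2) +
          2 * (wt k d (j + 1) / wt k d j) ^ 2 * ∑ x ∈ GAP_L (j + 1) d, ∑ i ∈ x,
            (f (x.erase i) - f ∅ * wt k d j) ^ 2 := by
          simp only [sum_add_distrib, mul_sum]
      _ ≤ 2 * (C / √(d : ℝ)) * D + 2 * (C / √(d : ℝ)) ^ 2 *
          (d * ∑ x ∈ GAP_L j d, (f x - f ∅ * wt k d j) ^ 2) := by
          have t0 : 0 ≤ ∑ x ∈ GAP_L (j + 1) d, ∑ i ∈ x, wt k d (j + 1) * wt k d j *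
              (f x / wt k d (j + 1) - f (x.erase i) / wt k d j) ^ 2 :=
            sum_nonneg fun _ _ => sum_nonneg fun _ _ => by positivity
          have t1 : 2 * (wt k d (j + 1) / wt k d j) ≤ 2 * (C / √(d : ℝ)) := by linarith
          have t2 : 2 * (wt k d (j + 1) / wt k d j) ^ 2 ≤ 2 * (C / √(d : ℝ)) ^ 2 := by
            have := pow_le_pow_left₀ hq0 hq 2
            linarith
          have t3 : 0 ≤ ∑ x ∈ GAP_L (j + 1) d, ∑ i ∈ x, (f (x.erase i) - f ∅ * wt k d j) ^ 2 :=
            sum_nonneg fun _ _ => sum_nonneg fun _ _ => sq_nonneg _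
          exact add_le_add (mul_le_mul t1 hlev t0 (by positivity))
            (mul_le_mul t2 hA t3 (by positivity))
      _ = 2 * C / √(d : ℝ) * D +
          2 * C ^ 2 * ∑ x ∈ GAP_L j d, (f x - f ∅ * wt k d j) ^ 2 := by
          have e5 : (C / √(d : ℝ)) ^ 2 * d = C ^ 2 := by
            rw [div_pow, Real.sq_sqrt hd0.le]
            field_simp
          have e6 : 2 * (C / √(d : ℝ)) ^ 2 *
              (d * ∑ x ∈ GAP_L j d, (f x - f ∅ * wt k d j) ^ 2) =
              2 * ((C / √(d : ℝ)) ^ 2 * d) *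
                ∑ x ∈ GAP_L j d, (f x - f ∅ * wt k d j) ^ 2 := by ring
          rw [e6, e5]
          ring
  have hX0 : 0 ≤ D / √(d : ℝ) := div_nonneg hD0 hs.le
  have hlevel : ∀ j : ℕ, j ≤ k →
      ∑ x ∈ GAP_L j d, (f x - f ∅ * wt k d j) ^ 2 ≤ M ^ j * (D / √(d : ℝ)) := by
    intro j
    induction j with
    | zero =>
      intro _
      have : ∑ x ∈ GAP_L 0 d, (f x - f ∅ * wt k d 0) ^ 2 = 0 := by
        refine sum_eq_zero fun x hx => ?_
        rw [GAP_mem, card_eq_zero] at hx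
        rw [hx, w0]
        ring
      rw [this]
      positivity
    | succ j ih =>
      intro hj
      have h1 := ih (by omega)
      refine (hrec j hj).trans ?_
      have h2 : 2 * C / √(d : ℝ) * D = 2 * C * (D / √(d : ℝ)) := by ring
      have h3 : (1 : ℝ) ≤ M ^ j := one_le_pow₀ hM1
      have h4 : 2 * C ^ 2 * ∑ x ∈ GAP_L j d, (f x - f ∅ * wt k d j) ^ 2 ≤
          2 * C ^ 2 * (M ^ j * (D / √(d : ℝ))) := mul_le_mul_of_nonneg_left h1 (by positivity)
      rw [h2]
      have h5 : 2 * C * (D / √(d : ℝ)) ≤ 2 * C * (M ^ j * (D / √(d : ℝ))) := by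
        apply mul_le_mul_of_nonneg_left _ (by positivity)
        nlinarith
      have h6 : M ^ (j + 1) * (D / √(d : ℝ)) = 2 * C * (M ^ j * (D / √(d : ℝ))) +
          2 * C ^ 2 * (M ^ j * (D / √(d : ℝ))) + M ^ j * (D / √(d : ℝ)) := by
        rw [pow_succ, hM]
        ring
      have h7 : 0 ≤ M ^ j * (D / √(d : ℝ)) := by positivity
      linarith
  rw [GAP_sum_ball]
  have hfin : ∀ j ∈ range (k + 1), ∑ x ∈ GAP_L j d, (f x - f ∅ * wt k d x.card) ^ 2 ≤
      M ^ k * (D / √(d : ℝ)) := by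
    intro j hj
    rw [mem_range] at hj
    have e : ∑ x ∈ GAP_L j d, (f x - f ∅ * wt k d x.card) ^ 2 =
        ∑ x ∈ GAP_L j d, (f x - f ∅ * wt k d j) ^ 2 := by
      refine sum_congr rfl fun x hx => ?_
      rw [GAP_mem] at hx
      rw [hx]
    rw [e]
    refine (hlevel j (by omega)).trans ?_
    exact mul_le_mul_of_nonneg_right (pow_le_pow_right₀ hM1 (by omega)) hX0
  refine (sum_le_sum hfin).trans ?_
  rw [sum_const, card_range, nsmul_eq_mul]
  apply le_of_eq
  push_cast
  ring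

end

end Pool.Agent.PLR
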