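import Pool.Agent.helper99.PLR.Spec
import Pool.Agent.helper9.HX.Explicit

/-!
# Row LNN of project plr
-/

set_option autoImplicit false

namespace Pool.Agent.PLR

theorem LNN : LNN_stmt := by
  obtain ⟨m₀, h⟩ := Pool.Agent.helper9.HX.explicit
  refine ⟨max m₀ 1, le_max_right _ _, fun n hn => ?_⟩
  have h1 := h n n ((le_max_left _ _).trans hn) (by omega)
  exact ⟨h1.2.1, h1.2.2.1 (by omega)⟩

end Pool.Agent.PLR
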